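import Mathlib

set_option autoImplicit false

/-!
A finite certificate for the dynamics `(u, v, x) ↦ (v, gcd (u + v) x, x + u)`, which describes two
consecutive differences `u, v` and the current term `x` of the sequence.
The states of a cycle modulo `840` are stored in `table`; every excursion from the cycle caused by
other prime powers is followed, remembering the congruences it forces, until it returns.
-/

namespace Pool.Agent.Lib.MP_f6aa92_nt

/-- One step of the dynamics. -/
def step (s : ℕ × ℕ × ℕ) : ℕ × ℕ × ℕ := (s.2.1, Nat.gcd (s.1 + s.2.1) s.2.2, s.2.2 + s.1)

/-- The values that occur as differences. -/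
def allowed : List ℕ :=
  [0, 1, 2, 3, 4, 5, 6, 7, 8, 9, 10, 11, 12, 13, 15, 16, 17, 18, 19, 20, 21, 22, 23, 24, 25, 29,
    31, 32, 34, 41, 43, 44, 64, 73, 74]

/-- Packed table of the states of the cycle: fourteen bits for each residue modulo `840`. -/
def table : ℕ := 11437467305861074507311518750940608450001032283351691714711475152175061946376643773298170818647477286263595393790037902981633341762917569232438401271110003939235890605670089748496144286282452720893985075205358709374289215880276342984952705553648546648437714356131658642449094331083097036751188415296252789372381656039661095956582450684437871573536304654378396150615383794809891754591708944649961170553163587348934913873677154450823602604795676639278166469955778836950784258858312292717448009023558220372267595228417044290883726526181542838756189685579585490331724024003862166356138609529291599955199992622122319341162782279507694105163870739396531337386485698104897940361605949807829901260301915193082141149819225232276338818165465006837427195126864773448036217568994790586367789469920093867552985858662977358712820877488519518223302415541823491680109757410321182699833428930657493932953679272421646155293547031591660983836272990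44245083875384855945979508824970183875951214557202725015213111969333615205216898890974420146196966881990029743187570455380753645012299818510299210013941697597152641109891768147477195511831842997974516198713229154180638474638189332283354323572321580776505864362205799706670464789090882119966492651508227271979837744017032010730604844910438626104959839265081656562412913255679569839196873665728208289906350459433600157093767243157903131433419641793822450531426895339887230416884595117284032139892882841262042522073026189448011573062764971339753202866204064671930113332445466897967300813700263513632048358069499015778823705439534085793543253729036964088192649785767238639209451272422251084866413141363211449662351273244904170097743318688036486826199609924093930041423387701563461816363336247975833138324061190407798767287553664261775643456616858570883315997447382266538877189663668454624216557387432328957922181948383426427318840529151691734101401728171525895230613756757647303099520091329864671577865446981305607682648597929708805348325939685278073517759750361982936878922916084860232751904895007375618690026110998560277156718070155530368390098347755401915809819062164497069661687610243289186640313735098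52524940090447079963850000738731878417823402313117368307366048504877442060939130665623611083512112955556339312325704392652286707750833120092225478459104664046528368729870319532375316885772988233861266116196376751984748826707324932758532449776670828809649241119219233906215293059326289391624579274413460280250142282918596284566856679989052829473334863487842367876744023788816217297064031373627678237196751649237908377344224067586066150940492780422046061476788739678698046923610411652531771826955450261337490756764747703032338656497175843261599665610710449866392153760119901291226761381627969267352747205128349247933555803403014774042526744266296102455492721387889616102479955531492677929368591506897380259034572358496119944422508137811988511168165687856325161440580683736396691301372845524143778569606306354124061855103415430658866587864212982049836547628272725565075146429665930568423381252318207152961785885194065317497141639681794466129967978915353168281602708388760356835613668805144458692074148309500977855211809308095280752922900614321466792613758063919959614018318525138854968823378892563068120066787146512738588076610650564062449624407845851415710098064523996922720361742559498709478633564370286586806417313812819166519623992475047452015774946602970435208430970831023294423809900658496652020139625101891030608080704945622537567569355152495179480672710691609806639528341891352034565777791123969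

def code (r : ℕ) : ℕ := (table >>> (14 * r)) % 16384

def inBase (u v r : ℕ) : Bool :=
  decide (0 < v) && decide (v < 128) && code (r % 840) == u * 128 + v

def nodeOK (u v r : ℕ) : Bool :=
  allowed.contains u && !(decide (r % 840 < 412) && decide (412 < r % 840 + u)) &&
    (r % 840 != 412 || (u == 1 && v == 1))

def expand (next : ℕ → ℕ → ℕ → ℕ → Bool) (u v r m : ℕ) : Bool :=
  nodeOK u v r && decide (0 < u + v) &&
    (List.range (u + v + 1)).all fun w =>
      !((u + v) % w == 0 && w % Nat.gcd (u + v) (Nat.gcd m r) == 0) ||
        (List.range (w / Nat.gcd w m)).all fun k =>
          !((r + k * m) % w == 0) || next v w (r + k * m + u) (m * (w / Nat.gcd w m))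

def chk : ℕ → ℕ → ℕ → ℕ → ℕ → Bool
  | 0, u, v, r, _ => inBase u v r
  | f + 1, u, v, r, m => inBase u v r || expand (chk f) u v r m

theorem base_ok : (List.range 840).all (fun r =>
    code r == 0 || expand (chk 40) (code r / 128) (code r % 128) r 840) = true := by
  decide +kernel

theorem start_ok : chk 40 0 1 1 0 = true := by decide +kernel

/-- The invariant of the orbit. -/
def Inv (s : ℕ × ℕ × ℕ) : Prop :=
  ∃ f r m t, 840 ∣ m ∧ s.2.2 = r + m * t ∧ chk f s.1 s.2.1 r m = true

theorem expand_sound {f u v r m t : ℕ} (hm : 840 ∣ m) (h : expand (chk f) u v r m = true) :
    nodeOK u v (r + m * t) = true ∧ Inv (step (u, v, r + m * t)) := by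
  simp only [expand, Bool.and_eq_true, decide_eq_true_eq, List.all_eq_true, List.mem_range,
    Bool.or_eq_true, Bool.not_eq_true', Bool.and_eq_false_imp, beq_iff_eq, beq_eq_false_iff_ne]
    at h
  obtain ⟨⟨h1, h2⟩, h3⟩ := h
  have hmod : (r + m * t) % 840 = r % 840 := by
    obtain ⟨c, rfl⟩ := hm
    rw [Nat.mul_assoc, Nat.add_mul_mod_self_left]
  refine ⟨by simpa only [nodeOK, hmod] using h1, ?_⟩
  set w := Nat.gcd (u + v) (r + m * t) with hw
  have hw1 : w ∣ u + v := Nat.gcd_dvd_left _ _
  have hw2 : w ∣ r + m * t := Nat.gcd_dvd_right _ _
  have hw0 : 0 < w := Nat.pos_of_dvd_of_pos hw1 h2
  have hw3 : Nat.gcd (u + v) (Nat.gcd m r) ∣ w := by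
    refine Nat.dvd_gcd (Nat.gcd_dvd_left _ _) (Nat.dvd_add ?_ (Dvd.dvd.mul_right ?_ t))
    · exact (Nat.gcd_dvd_right _ _).trans (Nat.gcd_dvd_right _ _)
    · exact (Nat.gcd_dvd_right _ _).trans (Nat.gcd_dvd_left _ _)
  rcases h3 w (Nat.lt_succ_of_le (Nat.le_of_dvd h2 hw1)) with h4 | h4
  · exact absurd (Nat.mod_eq_zero_of_dvd hw3) (h4 (Nat.mod_eq_zero_of_dvd hw1))
  · set c := w / Nat.gcd w m with hc
    have hg : 0 < Nat.gcd w m := Nat.gcd_pos_of_pos_left _ hw0
    have hc0 : 0 < c := Nat.div_pos (Nat.gcd_le_left _ hw0) hg
    have hwc : w ∣ m * c := by
      obtain ⟨m', hm'⟩ := Nat.gcd_dvd_right w m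
      refine ⟨m', ?_⟩
      calc m * c = Nat.gcd w m * m' * c := by rw [← hm']
        _ = (c * Nat.gcd w m) * m' := by ring
        _ = w * m' := by rw [hc, Nat.div_mul_cancel (Nat.gcd_dvd_left w m)]
    have e : r + m * t = r + (t % c) * m + m * c * (t / c) := by
      conv_lhs => rw [← Nat.mod_add_div t c]
      ring
    have hk : w ∣ r + (t % c) * m := by
      rw [e] at hw2
      exact (Nat.dvd_add_left (Dvd.dvd.mul_right hwc _)).mp hw2
    rcases h4 (t % c) (Nat.mod_lt _ hc0) with h5 | h5
    · exact absurd (Nat.mod_eq_zero_of_dvd hk) h5
    · refine ⟨f, r + (t % c) * m + u, m * c, t / c, Dvd.dvd.mul_right hm c, ?_, h5⟩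
      show r + m * t + u = _
      rw [e]
      ring

theorem inv_step {s : ℕ × ℕ × ℕ} (h : Inv s) :
    nodeOK s.1 s.2.1 s.2.2 = true ∧ Inv (step s) := by
  obtain ⟨u, v, x⟩ := s
  obtain ⟨f, r, m, t, hm, hx, hc⟩ := h
  simp only at hx hc ⊢
  have hbase : inBase u v r = true → nodeOK u v x = true ∧ Inv (step (u, v, x)) := by
    intro hb
    simp only [inBase, Bool.and_eq_true, decide_eq_true_eq, beq_iff_eq] at hb
    obtain ⟨⟨hv0, hv⟩, hcode⟩ := hb
    have h1 := List.all_eq_true.mp base_ok (r % 840) (List.mem_range.mpr (Nat.mod_lt _ (by norm_num)))
    rw [hcode, Bool.or_eq_true, beq_iff_eq, show (u * 128 + v) / 128 = u by omega,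
      show (u * 128 + v) % 128 = v by omega] at h1
    have h2 := h1.resolve_left (by omega)
    have e : x = r % 840 + 840 * (x / 840) := by
      obtain ⟨c, rfl⟩ := hm
      rw [Nat.mul_assoc] at hx
      omega
    rw [e]
    exact expand_sound (dvd_refl _) h2
  cases f with
  | zero => exact hbase hc
  | succ f =>
    simp only [chk, Bool.or_eq_true] at hc
    rcases hc with hc | hc
    · exact hbase hc
    · rw [hx]
      exact expand_sound hm hc

theorem inv_iterate (n : ℕ) : Inv (step^[n + 1] (0, 0, 1)) := by
  induction n with
  | zero => exact ⟨40, 1, 0, 0, dvd_zero _, rfl, start_ok⟩
  | succ n ih =>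
    rw [Function.iterate_succ_apply']
    exact (inv_step ih).2

theorem node_iterate (n : ℕ) :
    nodeOK (step^[n] (0, 0, 1)).1 (step^[n] (0, 0, 1)).2.1 (step^[n] (0, 0, 1)).2.2 = true := by
  cases n with
  | zero => decide
  | succ n => exact (inv_step (inv_iterate n)).1

/-- The first coordinates along an orbit segment. -/
def hits : ℕ → ℕ → ℕ → ℕ → List ℕ
  | 0, _, _, _ => []
  | L + 1, u, v, x => u :: hits L v (Nat.gcd (u + v) x) (x + u)

theorem hits_sound {d : ℕ} : ∀ (L u v x : ℕ), d ∈ hits L u v x →
    ∃ i, (step^[i] (u, v, x)).1 = d := by
  intro L
  induction L with
  | zero => intro u v x h; simp [hits] at h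
  | succ L ih =>
    intro u v x h
    rcases List.mem_cons.mp h with h | h
    · exact ⟨0, h.symm⟩
    · obtain ⟨i, hi⟩ := ih _ _ _ h
      exact ⟨i + 1, hi⟩

theorem witnesses : allowed.all (fun d => d == 0 ||
    [5317652862, 1905282, 2436, 90582585, 68835717, 783018, 3879974334, 7].any
      fun j => (hits 305 1 1 (412 + 840 * j)).contains d) = true := by
  decide +kernel

end Pool.Agent.Lib.MP_f6aa92_nt
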